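import Pool.Agent.helper59.MO.Base

open Complex Finset

namespace Pool.Agent.MO

theorem XAB_arg (z w : ℂ) (hz : 0 < z.re) (hw : 0 < w.re) (h : 0 ≤ z.re * w.re + z.im * w.im) :
    |arg z - arg w| ≤ Real.pi / 2 := by
  have hz0 : z ≠ 0 := by rintro rfl; simp at hz
  have hw0 : w ≠ 0 := by rintro rfl; simp at hw
  have hzn : 0 < ‖z‖ := norm_pos_iff.2 hz0
  have hwn : 0 < ‖w‖ := norm_pos_iff.2 hw0
  have a1 : |arg z| < Real.pi / 2 := Complex.abs_arg_lt_pi_div_two_iff.2 (Or.inl hz)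
  have a2 : |arg w| < Real.pi / 2 := Complex.abs_arg_lt_pi_div_two_iff.2 (Or.inl hw)
  have hcos : 0 ≤ Real.cos (arg z - arg w) := by
    rw [Real.cos_sub, Complex.cos_arg hz0, Complex.cos_arg hw0, Complex.sin_arg, Complex.sin_arg]
    have : z.re / ‖z‖ * (w.re / ‖w‖) + z.im / ‖z‖ * (w.im / ‖w‖) =
        (z.re * w.re + z.im * w.im) / (‖z‖ * ‖w‖) := by
      field_simp
    rw [this]
    positivity
  by_contra hcon
  push Not at hcon
  have hlt : |arg z - arg w| < Real.pi := by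
    rw [abs_lt] at a1 a2 ⊢
    constructor <;> linarith [a1.1, a1.2, a2.1, a2.2]
  have hneg : Real.cos |arg z - arg w| < 0 :=
    Real.cos_neg_of_pi_div_two_lt_of_lt hcon (by linarith [Real.pi_pos])
  rw [Real.cos_abs] at hneg
  linarith

theorem XAB_one (B : ℂ) (C : ℝ) (hB : 0 < B.re) (hC : 0 < C) (hC1 : C ≤ 1) :
    |arg (B + (C + 4 * I) / (4 - C)) - arg (B + (2 + C + 2 * I) / (2 + C))| ≤ Real.pi / 2 := by
  have h4 : (0 : ℝ) < 4 - C := by linarith
  have h2 : (0 : ℝ) < 2 + C := by linarith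
  have e1 : B + ((C : ℂ) + 4 * I) / (4 - C) =
      ⟨B.re + C / (4 - C), B.im + 4 / (4 - C)⟩ := by
    have h4' : (4 - (C : ℂ)) ≠ 0 := by
      have : ((4 - C : ℝ) : ℂ) ≠ 0 := by exact_mod_cast h4.ne'
      simpa using this
    have : ((C : ℂ) + 4 * I) / (4 - C) = ⟨C / (4 - C), 4 / (4 - C)⟩ := by
      rw [div_eq_iff h4']
      apply Complex.ext
      · simp
        field_simp
      · simp
        field_simp
    rw [this]
    apply Complex.ext <;> simp
  have e2 : B + (2 + (C : ℂ) + 2 * I) / (2 + C) =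
      ⟨B.re + 1, B.im + 2 / (2 + C)⟩ := by
    have h2' : (2 + (C : ℂ)) ≠ 0 := by
      have : ((2 + C : ℝ) : ℂ) ≠ 0 := by exact_mod_cast h2.ne'
      simpa using this
    have : (2 + (C : ℂ) + 2 * I) / (2 + C) = ⟨1, 2 / (2 + C)⟩ := by
      rw [div_eq_iff h2']
      apply Complex.ext
      · simp
      · simp
        field_simp
    rw [this]
    apply Complex.ext <;> simp
  rw [e1, e2]
  apply XAB_arg
  · change 0 < B.re + C / (4 - C)
    positivity
  · change 0 < B.re + 1
    positivity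
  · change 0 ≤ (B.re + C / (4 - C)) * (B.re + 1) + (B.im + 4 / (4 - C)) * (B.im + 2 / (2 + C))
    have k1 : 0 ≤ B.re * (B.re + 1) := by positivity
    have k2 : 0 ≤ C / (4 - C) * B.re := by positivity
    have k3 : 0 ≤ (B.im + (4 / (4 - C) + 2 / (2 + C)) / 2) ^ 2 := sq_nonneg _
    have k4 : (4 / (4 - C) - 2 / (2 + C)) ^ 2 / 4 ≤ C / (4 - C) := by
      have : 4 / (4 - C) - 2 / (2 + C) = 6 * C / ((4 - C) * (2 + C)) := by
        field_simp
        ring
      rw [this, div_pow, div_div, div_le_div_iff₀ (by positivity) h4]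
      have q1 : 9 ≤ (4 - C) * (2 + C) ^ 2 := by nlinarith
      have : (6 * C) ^ 2 * (4 - C) = 36 * C * ((4 - C) * C) := by ring
      have : C * (((4 - C) * (2 + C)) ^ 2 * 4) = 4 * C * (4 - C) * ((4 - C) * (2 + C) ^ 2) := by ring
      have q2 : 4 * C * (4 - C) * 9 ≤ 4 * C * (4 - C) * ((4 - C) * (2 + C) ^ 2) :=
        mul_le_mul_of_nonneg_left q1 (by positivity)
      have q3 : 4 * C * (4 - C) * 9 * C ≤ 4 * C * (4 - C) * 9 * 1 :=
        mul_le_mul_of_nonneg_left hC1 (by positivity)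
      nlinarith
    nlinarith

theorem XAB_two (hPHS : PHS_stmt) (hPHE : PHE_stmt) (hACG : ACG_stmt) (A B m : ℂ) (C : ℝ)
    (hacc : Acc2 A B m) (hC : 0 < C) :
    phS (G5 A B C 1 1 m (-I) (-I) (-I) (-I) (-I) (-I)) {1, 2, 3, 4} = arg (B + (2 + C + 2 * I) / (2 + C)) ∧
    phS (G5 A B C 1 1 m (-I) (-I) (-I) (-I) (-I) (-I)) {0, 2, 3, 4} = arg (A + (2 + C + 2 * I) / (2 + C)) := by
  have h5 := H59_acc hACG A B m C 1 1 (-I) (-I) (-I) (-I) (-I) (-I) hacc hC one_pos one_pos (by simp)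
    (by simp) (by simp) (by simp) (by simp) (by simp)
  rw [Complex.ofReal_one] at h5
  set F := G5 A B C 1 1 m (-I) (-I) (-I) (-I) (-I) (-I) with hF
  have c1 : ((C : ℂ) + 1) ≠ 0 := by
    have : ((C + 1 : ℝ) : ℂ) ≠ 0 := by exact_mod_cast (by linarith : (0:ℝ) < C + 1).ne'
    simpa using this
  have c2 : ((C : ℂ) + 2) ≠ 0 := by
    have : ((C + 2 : ℝ) : ℂ) ≠ 0 := by exact_mod_cast (by linarith : (0:ℝ) < C + 2).ne'
    simpa using this
  have c3 : (2 + (C : ℂ)) ≠ 0 := by rw [add_comm]; exact c2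
  have hI : I * I = -1 := Complex.I_mul_I
  constructor
  · have h4 : AccS F {1, 2, 3, 4} := hPHE.2.2.2.2 _ {1, 2, 3, 4} {0, 1, 2, 3, 4} (by decide) h5
    obtain ⟨_, h3, hp3⟩ := H59_elim hPHS F {1, 2, 4} {1, 2, 3, 4} 3 (by decide) (by decide) h4 1
      (by rw [Complex.ofReal_one]; rfl)
    have e22 : sch F 3 2 2 = ((C + 1 : ℝ) : ℂ) := by
      change (C : ℂ) - (-I) * (-I) / 1 = _
      push_cast
      linear_combination -hI
    have e44 : sch F 3 4 4 = 1 := by
      change (1 : ℂ) - 0 * 0 / 1 = _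
      ring
    have e24 : sch F 3 2 4 = -I := by
      change -I - (-I) * 0 / 1 = _
      ring
    have e42 : sch F 3 4 2 = -I := by
      change -I - 0 * (-I) / 1 = _
      ring
    have e12 : sch F 3 1 2 = -I := by
      change -I - 0 * (-I) / 1 = _
      ring
    have e21 : sch F 3 2 1 = -I := by
      change -I - (-I) * 0 / 1 = _
      ring
    have e14 : sch F 3 1 4 = -I := by
      change -I - 0 * 0 / 1 = _
      ring
    have e41 : sch F 3 4 1 = -I := by
      change -I - 0 * 0 / 1 = _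
      ring
    have e11 : sch F 3 1 1 = B := by
      change B - 0 * 0 / 1 = _
      ring
    obtain ⟨_, h2, hp2⟩ := H59_elim hPHS (sch F 3) {1, 4} {1, 2, 4} 2 (by decide) (by decide) h3 (C + 1) e22
    have f44 : sch (sch F 3) 2 4 4 = (((C + 2) / (C + 1) : ℝ) : ℂ) := by
      change sch F 3 4 4 - sch F 3 4 2 * sch F 3 2 4 / sch F 3 2 2 = _
      rw [e44, e42, e24, e22]
      push_cast
      field_simp
      linear_combination -hI
    have f11 : sch (sch F 3) 2 1 1 = B + 1 / (C + 1) := by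
      change sch F 3 1 1 - sch F 3 1 2 * sch F 3 2 1 / sch F 3 2 2 = _
      rw [e11, e12, e21, e22]
      push_cast
      field_simp
      linear_combination -hI
    have f14 : sch (sch F 3) 2 1 4 = -I + 1 / (C + 1) := by
      change sch F 3 1 4 - sch F 3 1 2 * sch F 3 2 4 / sch F 3 2 2 = _
      rw [e14, e12, e24, e22]
      push_cast
      field_simp
      linear_combination -hI
    have f41 : sch (sch F 3) 2 4 1 = -I + 1 / (C + 1) := by
      change sch F 3 4 1 - sch F 3 4 2 * sch F 3 2 1 / sch F 3 2 2 = _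
      rw [e41, e42, e21, e22]
      push_cast
      field_simp
      linear_combination -hI
    obtain ⟨_, h1, hp1⟩ := H59_elim hPHS (sch (sch F 3) 2) {1} {1, 4} 4 (by decide) (by decide) h2
      ((C + 2) / (C + 1)) f44
    rw [hp3, hp2, hp1, (hPHE.2.1 _ 1).1]
    congr 1
    change sch (sch F 3) 2 1 1 - sch (sch F 3) 2 1 4 * sch (sch F 3) 2 4 1 / sch (sch F 3) 2 4 4 = _
    rw [f11, f14, f41, f44]
    push_cast
    field_simp
    linear_combination (-((C : ℂ) + 1) ^ 2 * ((C : ℂ) + 2)) * hI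
  · have h4 : AccS F {0, 2, 3, 4} := hPHE.2.2.2.2 _ {0, 2, 3, 4} {0, 1, 2, 3, 4} (by decide) h5
    obtain ⟨_, h3, hp3⟩ := H59_elim hPHS F {0, 2, 3} {0, 2, 3, 4} 4 (by decide) (by decide) h4 1
      (by rw [Complex.ofReal_one]; rfl)
    have e22 : sch F 4 2 2 = ((C + 1 : ℝ) : ℂ) := by
      change (C : ℂ) - (-I) * (-I) / 1 = _
      push_cast
      linear_combination -hI
    have e44 : sch F 4 3 3 = 1 := by
      change (1 : ℂ) - 0 * 0 / 1 = _
      ring
    have e24 : sch F 4 2 3 = -I := by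
      change -I - (-I) * 0 / 1 = _
      ring
    have e42 : sch F 4 3 2 = -I := by
      change -I - 0 * (-I) / 1 = _
      ring
    have e12 : sch F 4 0 2 = -I := by
      change -I - 0 * (-I) / 1 = _
      ring
    have e21 : sch F 4 2 0 = -I := by
      change -I - (-I) * 0 / 1 = _
      ring
    have e14 : sch F 4 0 3 = -I := by
      change -I - 0 * 0 / 1 = _
      ring
    have e41 : sch F 4 3 0 = -I := by
      change -I - 0 * 0 / 1 = _
      ring
    have e11 : sch F 4 0 0 = A := by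
      change A - 0 * 0 / 1 = _
      ring
    obtain ⟨_, h2, hp2⟩ := H59_elim hPHS (sch F 4) {0, 3} {0, 2, 3} 2 (by decide) (by decide) h3 (C + 1) e22
    have f44 : sch (sch F 4) 2 3 3 = (((C + 2) / (C + 1) : ℝ) : ℂ) := by
      change sch F 4 3 3 - sch F 4 3 2 * sch F 4 2 3 / sch F 4 2 2 = _
      rw [e44, e42, e24, e22]
      push_cast
      field_simp
      linear_combination -hI
    have f11 : sch (sch F 4) 2 0 0 = A + 1 / (C + 1) := by
      change sch F 4 0 0 - sch F 4 0 2 * sch F 4 2 0 / sch F 4 2 2 = _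
      rw [e11, e12, e21, e22]
      push_cast
      field_simp
      linear_combination -hI
    have f14 : sch (sch F 4) 2 0 3 = -I + 1 / (C + 1) := by
      change sch F 4 0 3 - sch F 4 0 2 * sch F 4 2 3 / sch F 4 2 2 = _
      rw [e14, e12, e24, e22]
      push_cast
      field_simp
      linear_combination -hI
    have f41 : sch (sch F 4) 2 3 0 = -I + 1 / (C + 1) := by
      change sch F 4 3 0 - sch F 4 3 2 * sch F 4 2 0 / sch F 4 2 2 = _
      rw [e41, e42, e21, e22]
      push_cast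
      field_simp
      linear_combination -hI
    obtain ⟨_, h1, hp1⟩ := H59_elim hPHS (sch (sch F 4) 2) {0} {0, 3} 3 (by decide) (by decide) h2
      ((C + 2) / (C + 1)) f44
    rw [hp3, hp2, hp1, (hPHE.2.1 _ 0).1]
    congr 1
    change sch (sch F 4) 2 0 0 - sch (sch F 4) 2 0 3 * sch (sch F 4) 2 3 0 / sch (sch F 4) 2 3 3 = _
    rw [f11, f14, f41, f44]
    push_cast
    field_simp
    linear_combination (-((C : ℂ) + 1) ^ 2 * ((C : ℂ) + 2)) * hI

theorem XAB (hPHS : PHS_stmt) (hPHE : PHE_stmt) (hACG : ACG_stmt) : XAB_stmt :=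
  ⟨fun B C hB hC hC1 => XAB_one B C hB hC hC1,
    fun A B m C hacc hC _ => XAB_two hPHS hPHE hACG A B m C hacc hC⟩

end Pool.Agent.MO
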